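import Pool.Agent.Lib.MP_5f94bd_co.Final

/-!
# Covering the unit disk by disks with geometric radii: `s* ≥ 0.753`
-/

set_option autoImplicit false

namespace Pool.Agent.Results.MP_5f94bd_co.LowerBound

open Pool.Agent.Lib.MP_5f94bd_co

/-- Every admissible `s` is larger than `0.753`; in particular `s* ≥ 0.753`. -/
theorem result : (∀ s : ℝ, 0 < s → Admissible s → 753 / 1000 < s) ∧ 753 / 1000 ≤ sStar :=
  ⟨fun _ h0 hs => lt_of_not_ge fun h1 => not_admissible h0 h1 hs, le_sStar⟩

end Pool.Agent.Results.MP_5f94bd_co.LowerBound
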