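import Pool.Agent.Lib.MP_5f94bd_co.Final

/-!
# Covering the unit disk by disks with geometric radii: `s* ≤ 0.7606`
-/

set_option autoImplicit false

namespace Pool.Agent.Results.MP_5f94bd_co.UpperBound

open Pool.Agent.Lib.MP_5f94bd_co

/-- `0.7606` is admissible; in particular `s* ≤ 0.7606`. -/
theorem result : Admissible (7606 / 10000) ∧ sStar ≤ 7606 / 10000 :=
  ⟨admissible_upper, sStar_le⟩

end Pool.Agent.Results.MP_5f94bd_co.UpperBound
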